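import Pool.Agent.P.MP_93ad88_nt.Main

/-!
A finite criterion for Motzkin-square-free primes `p ≥ 5`.  `motzkin`, `trinomial` (central
trinomial coefficient) and `MSF` (Motzkin-square-free) are defined in the file `Defs`.
-/

set_option autoImplicit false

namespace Pool.Agent.Results.MP_93ad88_nt.Criterion

open Pool.Agent.P.MP_93ad88_nt

theorem result (p : ℕ) (hp : p.Prime) (h5 : 5 ≤ p) :
    List.TFAE [
      MSF p,
      ∀ n < p ^ 4, ¬ p ^ 2 ∣ motzkin n,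
      (∀ j < p, ¬ (p : ℤ) ∣ trinomial j) ∧ ¬ (p : ℤ) ^ 2 ∣ 3 ^ (p - 1) - 1 ∧
        (∀ n < p ^ 2, ¬ p ^ 2 ∣ motzkin n) ∧
        ∀ m : ℕ, m + 1 < p ^ 2 → ∀ e : ℤ, (e = 1 ∨ (e = -1 ∧ p % 3 = 2)) →
          ¬ (p : ℤ) ^ 2 ∣ trinomial (m + 1)
            - e * (1 + (m + 1) * (3 ^ (p - 1) - 1)) * trinomial m ∧
          ¬ (p : ℤ) ^ 2 ∣ trinomial (m + 1)
            + 3 * e * (1 + (m + 1) * (3 ^ (p - 1) - 1)) * trinomial m] := by
  have h2 : p ≠ 2 := by omega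
  have h3 : p % 3 ≠ 0 := h3_of hp (by omega)
  tfae_have 1 ↔ 2 := finite_crit hp
  tfae_have 1 → 3 := fun h =>
    ⟨((crit_sq hp h3 h2).1 h).1, (necessary hp h).2, ((crit_sq hp h3 h2).1 h).2⟩
  tfae_have 3 → 1 := fun h => (crit_sq hp h3 h2).2 ⟨h.1, h.2.2⟩
  tfae_finish

end Pool.Agent.Results.MP_93ad88_nt.Criterion
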