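import Pool.Agent.P.MP_93ad88_nt.MZ.C

/-!
A mean value bound, over any finite set of primes `p`, for the number of `n < p` in a window of
length `N` with `p ∣ T(n) M(n)`.
-/

set_option autoImplicit false

namespace Pool.Agent.Results.MP_93ad88_nt.MeanZeros

open Pool.Agent.P.MP_93ad88_nt

theorem result : ∃ C : ℝ, ∀ (P : Finset ℕ) (N : ℕ) (s : ℕ → ℕ), (∀ p ∈ P, p.Prime) →
    ((∑ p ∈ P, ((Finset.Ico (s p) (s p + N)).filter
        fun n => n < p ∧ (p : ℤ) ∣ trinomial n * (motzkin n : ℤ)).card : ℕ) : ℝ)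
      ≤ C * (((N : ℝ) * (P.card : ℝ)) ^ ((4 : ℝ) / 5) + (P.card : ℝ)) :=
  ⟨6084, fun P N s hP => MZ.mean_zeros N s P hP⟩

end Pool.Agent.Results.MP_93ad88_nt.MeanZeros
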