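import Pool.Agent.P.MP_93ad88_nt.Main

/-!
An explicit criterion with `p` conditions for Motzkin-square-free primes `p ≡ 1 mod 3` that divide
none of `M(0), ..., M(p-3)`.
-/

set_option autoImplicit false

namespace Pool.Agent.Results.MP_93ad88_nt.OneModThree

open Pool.Agent.P.MP_93ad88_nt

theorem result (p : ℕ) (hp : p.Prime) (h1 : p % 3 = 1)
    (hM : ∀ k, k + 3 ≤ p → ¬ p ∣ motzkin k) :
    MSF p ↔ ∀ j < p, ¬ (p : ℤ) ∣ trinomial j ∧
      ¬ (p : ℤ) ^ 2 ∣ (3 ^ (p - 1) - 1) * trinomial j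
        + p * (j + 1) * (trinomial j - trinomial (j + 1)) :=
  explicit hp h1 fun k hk => hM k hk

end Pool.Agent.Results.MP_93ad88_nt.OneModThree
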