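import Pool.Agent.P.MP_93ad88_nt.PW.Main

/-!
If a prime power `p^k` divides some Motzkin number, it divides one of index below `p^(2k)`.
`motzkin` is defined in the file `Defs`.
-/

set_option autoImplicit false

namespace Pool.Agent.Results.MP_93ad88_nt.PrimePowers

open Pool.Agent.P.MP_93ad88_nt

theorem result (p k n : ℕ) (hp : p.Prime) (h : p ^ k ∣ motzkin n) :
    ∃ m < p ^ (2 * k), p ^ k ∣ motzkin m := by
  obtain ⟨m, h1, h2⟩ := PW.first_zero (k := k) (n := n) hp (by exact_mod_cast h)
  exact ⟨m, h1, by exact_mod_cast h2⟩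

end Pool.Agent.Results.MP_93ad88_nt.PrimePowers
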